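import Pool.Agent.V11246.QqL

/-!
# The graph with no edges: a field with all permutations of the generic points as automorphisms

With the polynomial `P = t ^ 3 - (2 x ^ 6 + 14 x + 2)` the field generated by independent generic
points `(x i, t i)` of the curve `P = 0` has the five properties of the second question.

The proof. Let `k` be a field of characteristic zero without nontrivial cube roots of unity and `F`
the function field of the curve over `k`. If `(a, b)` is a point over `F` with `a` not in `k`, the
differentials `da / b ^ 2`, `a da / b ^ 2`, `a ^ 2 da / b ^ 2`, `da / b` are regular, so they are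
`(q + c t) dx / t ^ 2` with a quadratic polynomial `q` and a constant `c`. This makes `a` a Moebius
transform of `x` that preserves the six branch points, so `a = x` and `b = t`. The field of the
theorem is the union of the function fields of the powers of the curve, and the curve has no
rational point modulo 7.
-/

set_option autoImplicit false

namespace Pool.Agent.Results.MP_7de982_lc.EmptyGraph

open MvPolynomial

/-- The second question: there is a polynomial `P` and a field `K` of characteristic zero with
elements `x i`, `t i` such that all five properties hold. -/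
theorem result : ∃ (P : MvPolynomial (Fin 2) ℚ) (K : Type) (_ : Field K) (_ : Algebra ℚ K)
    (x t : ℕ → K),
      IntermediateField.adjoin ℚ (Set.range x ∪ Set.range t) = ⊤ ∧
      AlgebraicIndependent ℚ x ∧
      (∀ i, aeval ![x i, t i] P = 0) ∧
      (∀ π : Equiv.Perm ℕ, ∃! σ : K ≃+* K, ∀ i, σ (x i) = x (π i)) ∧
      {a : K | ∃ b : K, aeval ![a, b] P = 0} = Set.range x := by
  have key : ∀ a b : V11246.Q2.KI,
      aeval ![a, b] (X 1 ^ 3 - (2 * X 0 ^ 6 + 14 * X 0 + 2) : MvPolynomial (Fin 2) ℚ) = 0 ↔
        b ^ 3 = V11246.Q2.ff a := by
    intro a b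
    rw [map_sub, map_pow, map_add, map_add, map_mul, map_mul, map_pow, aeval_X, aeval_X,
      map_ofNat, map_ofNat, sub_eq_zero]
    rfl
  refine ⟨X 1 ^ 3 - (2 * X 0 ^ 6 + 14 * X 0 + 2), V11246.Q2.KI, inferInstance, inferInstance,
    V11246.Q2.kx, V11246.Q2.kt, V11246.Q2.gen, V11246.Q2.indep, fun i => ?_, V11246.Q2.aut, ?_⟩
  · rw [key]
    exact V11246.Q2.kt_cube i
  · ext a
    constructor
    · rintro ⟨b, hb⟩
      rw [key] at hb
      obtain ⟨i, h1, -⟩ := V11246.Q2.pointsK hb
      exact ⟨i, h1.symm⟩
    · rintro ⟨i, rfl⟩
      refine ⟨V11246.Q2.kt i, ?_⟩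
      rw [key]
      exact V11246.Q2.kt_cube i

end Pool.Agent.Results.MP_7de982_lc.EmptyGraph
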